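import Pool.Agent.W8.ST.Stm

set_option autoImplicit false

/-! Existence of the ground state (project ST). -/

open scoped ContDiff Topology
open MeasureTheory intervalIntegral Set Filter

namespace Pool.Agent.W60.ST

open Pool.Agent.W8.ST

noncomputable section

theorem q_pos (t : ℝ) : 0 < q t := Real.exp_pos _

theorem q_cont : Continuous q := by
  unfold q
  fun_prop

theorem f_cont (l : ℝ) : Continuous (fun t => ((q t)⁻¹) ^ 2 - l * q t) := by
  have h := q_cont
  have h0 : ∀ t, q t ≠ 0 := fun t => (q_pos t).ne'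
  exact ((h.inv₀ h0).pow 2).sub (continuous_const.mul h)

theorem pos_of (hUni : Uni) (f w : ℝ → ℝ) (hf : Continuous f) (hw : ContDiff ℝ ∞ w)
    (h1 : w (-1) = 1) (hode : ∀ t, deriv (deriv w) t = f t * w t)
    (h2 : ∀ t ∈ Icc (-1 : ℝ) 1, 0 ≤ w t) (h3 : 0 ≤ deriv w 1) :
    ∀ t ∈ Icc (-1 : ℝ) 1, 0 < w t := by
  intro s hs
  by_contra hneg
  have hs0 : w s = 0 := le_antisymm (not_lt.mp hneg) (h2 s hs)
  have hdiff : Differentiable ℝ w := hw.differentiable (by simp)
  have hds : deriv w s = 0 := by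
    rcases eq_or_lt_of_le hs.1 with h | h
    · exfalso
      rw [← h, h1] at hs0
      norm_num at hs0
    rcases eq_or_lt_of_le hs.2 with h' | h'
    · apply le_antisymm _ (by rw [h']; exact h3)
      have hd := (hdiff s).hasDerivAt
      have ht := (hasDerivAt_iff_tendsto_slope.mp hd).mono_left (nhdsLT_le_nhdsNE s)
      apply le_of_tendsto ht
      filter_upwards [Ioo_mem_nhdsLT h] with t ht'
      rw [slope_def_field, hs0, sub_zero]
      apply div_nonpos_of_nonneg_of_nonpos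
      · exact h2 t ⟨ht'.1.le, ht'.2.le.trans hs.2⟩
      · linarith [ht'.2]
    · apply IsLocalMin.deriv_eq_zero
      filter_upwards [Icc_mem_nhds h h'] with t ht'
      rw [hs0]
      exact h2 t ht'
  have h4 := hUni f w s hf (by exact_mod_cast contDiff_infty.mp hw 2) hs (fun t _ => hode t) hs0 hds
    (-1) ⟨le_rfl, by norm_num⟩
  rw [h1] at h4
  norm_num at h4

theorem at_zero (w g : ℝ → ℝ) (hw : ContDiff ℝ ∞ w) (h1 : w (-1) = 1) (h1' : deriv w (-1) = 0)
    (hg : ∀ t, 0 < g t) (hode : ∀ t, deriv (deriv w) t = g t * w t) :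
    (∀ t ∈ Icc (-1 : ℝ) 1, 0 < w t) ∧ 0 < deriv w 1 := by
  have d1 : Differentiable ℝ w := hw.differentiable (by simp)
  have hw' : ContDiff ℝ ∞ (deriv w) := (contDiff_infty_iff_deriv.mp hw).2
  have d2 : Differentiable ℝ (deriv w) := hw'.differentiable (by simp)
  have hh : ∀ t, HasDerivAt (fun t => w t * deriv w t)
      (deriv w t * deriv w t + w t * (g t * w t)) t := by
    intro t
    have h := (d1 t).hasDerivAt.mul (d2 t).hasDerivAt
    rw [hode] at h
    exact h
  have hpos' : ∀ t, 0 ≤ deriv w t * deriv w t + w t * (g t * w t) := by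
    intro t
    have e : w t * (g t * w t) = g t * (w t * w t) := by ring
    rw [e]
    exact add_nonneg (mul_self_nonneg _) (mul_nonneg (hg t).le (mul_self_nonneg _))
  have hmono : Monotone (fun t => w t * deriv w t) :=
    monotone_of_deriv_nonneg (fun t => (hh t).differentiableAt)
      (fun t => by rw [(hh t).deriv]; exact hpos' t)
  have h0 : ∀ t, -1 ≤ t → 0 ≤ w t * deriv w t := by
    intro t ht
    have h := hmono ht
    simp only [h1', mul_zero] at h
    exact h
  have hsqd : ∀ t, HasDerivAt (fun t => w t * w t) (deriv w t * w t + w t * deriv w t) t :=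
    fun t => (d1 t).hasDerivAt.mul (d1 t).hasDerivAt
  have hsq : MonotoneOn (fun t => w t * w t) (Ici (-1 : ℝ)) := by
    apply monotoneOn_of_deriv_nonneg (convex_Ici _)
    · exact (d1.continuous.mul d1.continuous).continuousOn
    · exact fun t _ => (hsqd t).differentiableAt.differentiableWithinAt
    · intro t ht
      rw [interior_Ici] at ht
      rw [(hsqd t).deriv]
      have h := h0 t (le_of_lt ht)
      linarith [mul_comm (w t) (deriv w t)]
  have hsq1 : ∀ t, -1 ≤ t → 1 ≤ w t * w t := by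
    intro t ht
    have h : w (-1) * w (-1) ≤ w t * w t := hsq (mem_Ici.mpr le_rfl) ht ht
    rw [h1, one_mul] at h
    exact h
  have hne : ∀ t, -1 ≤ t → w t ≠ 0 := by
    intro t ht h
    have h2 := hsq1 t ht
    rw [h] at h2
    norm_num at h2
  have hpos : ∀ t, -1 ≤ t → 0 < w t := by
    intro t ht
    by_contra hcon
    have h2 : (0 : ℝ) ∈ Icc (w t) (w (-1)) := ⟨not_lt.mp hcon, by rw [h1]; norm_num⟩
    obtain ⟨c, hc, hc'⟩ := intermediate_value_Icc' ht d1.continuous.continuousOn h2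
    exact hne c hc.1 hc'
  refine ⟨fun t ht => hpos t ht.1, ?_⟩
  obtain ⟨c, hc, hc'⟩ := exists_hasDerivAt_eq_slope (fun t => w t * deriv w t)
    (fun t => deriv w t * deriv w t + w t * (g t * w t)) (by norm_num : (-1 : ℝ) < 1)
    (d1.continuous.mul d2.continuous).continuousOn (fun t _ => hh t)
  simp only [h1', mul_zero, sub_zero] at hc'
  have h3 : 0 < deriv w c * deriv w c + w c * (g c * w c) := by
    have h4 : 0 < w c := hpos c hc.1.le
    have h5 := hg c
    have h6 := mul_self_nonneg (deriv w c)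
    positivity
  rw [hc'] at h3
  have h7 : 0 < w 1 * deriv w 1 := by
    have h8 : (1 : ℝ) - -1 = 2 := by norm_num
    rw [h8] at h3
    linarith
  exact (mul_pos_iff_of_pos_left (hpos 1 (by norm_num))).mp h7

theorem Gst_proof : Gst := by
  rintro ⟨w, hw, hw1, hw1', hode, hc, hc'⟩ hUni hPic hTri
  obtain ⟨τ, hτ, hτn⟩ := hTri
  have hpos : ∀ l, (∀ t ∈ Icc (-1 : ℝ) 1, 0 ≤ w l t) → 0 ≤ deriv (w l) 1 →
      ∀ t ∈ Icc (-1 : ℝ) 1, 0 < w l t :=
    fun l a b => pos_of hUni _ (w l) (f_cont l) (hw l) (hw1 l) (hode l) a b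
  have hhalf : ¬ ((∀ t ∈ Icc (-1 : ℝ) 1, 0 ≤ w (1 / 2) t) ∧ 0 ≤ deriv (w (1 / 2)) 1) := by
    rintro ⟨a, b⟩
    have h := hPic _ (w (1 / 2)) τ (f_cont (1 / 2)) (by exact_mod_cast contDiff_infty.mp (hw _) 2) hτ
      (hpos _ a b) (fun t _ => hode _ t) (hw1' _) b
    exact absurd h (not_le.mpr hτn)
  have hzero := at_zero (w 0) (fun t => ((q t)⁻¹) ^ 2) (hw 0) (hw1 0) (hw1' 0)
    (fun t => by have := q_pos t; positivity) (fun t => by rw [hode]; ring)
  by_contra hcon
  have hne : ∀ l ∈ Icc (0 : ℝ) (1 / 2), (∀ t ∈ Icc (-1 : ℝ) 1, 0 ≤ w l t) →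
      0 ≤ deriv (w l) 1 → 0 < deriv (w l) 1 := by
    intro l hl a b
    rcases eq_or_lt_of_le b with h | h
    swap
    · exact h
    exfalso
    rcases eq_or_lt_of_le hl.1 with h0 | h0
    · rw [← h0] at h
      linarith [hzero.2]
    rcases eq_or_lt_of_le hl.2 with h0' | h0'
    · rw [h0'] at a b
      exact hhalf ⟨a, b⟩
    exact hcon ⟨l, w l, h0, h0', hw l, hpos l a b, fun t _ => hode l t, hw1' l, h.symm⟩
  have hU : IsOpen {l : ℝ | (∀ t ∈ Icc (-1 : ℝ) 1, 0 < w l t) ∧ 0 < deriv (w l) 1} := by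
    rw [isOpen_iff_mem_nhds]
    rintro l ⟨a, b⟩
    have e1 : ∀ᶠ m in 𝓝 l, ∀ t ∈ Icc (-1 : ℝ) 1, 0 < w m t := by
      apply isCompact_Icc.eventually_forall_of_forall_eventually
      intro t ht
      exact (hc.tendsto (l, t)).eventually (eventually_gt_nhds (a t ht))
    have e2 : ∀ᶠ m in 𝓝 l, 0 < deriv (w m) 1 :=
      ((hc'.comp (Continuous.prodMk continuous_id continuous_const)).tendsto l).eventually
        (eventually_gt_nhds b)
    filter_upwards [e1, e2] with m h1 h2 using ⟨h1, h2⟩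
  have hV : IsOpen {l : ℝ | ¬ ((∀ t ∈ Icc (-1 : ℝ) 1, 0 ≤ w l t) ∧ 0 ≤ deriv (w l) 1)} := by
    have hcl : IsClosed {l : ℝ | (∀ t ∈ Icc (-1 : ℝ) 1, 0 ≤ w l t) ∧ 0 ≤ deriv (w l) 1} := by
      have e1 : IsClosed {l : ℝ | ∀ t ∈ Icc (-1 : ℝ) 1, 0 ≤ w l t} := by
        simp only [Set.ofPred_forall]
        refine isClosed_iInter fun t => isClosed_iInter fun _ => ?_
        exact isClosed_le continuous_const
          (hc.comp (Continuous.prodMk continuous_id continuous_const))
      have e2 : IsClosed {l : ℝ | 0 ≤ deriv (w l) 1} :=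
        isClosed_le continuous_const
          (hc'.comp (Continuous.prodMk continuous_id continuous_const))
      exact e1.inter e2
    exact hcl.isOpen_compl
  obtain ⟨l, hl, hlU, hlV⟩ := isPreconnected_Icc (a := (0 : ℝ)) (b := 1 / 2) _ _ hU hV
    (by
      intro l hl
      by_cases h : (∀ t ∈ Icc (-1 : ℝ) 1, 0 ≤ w l t) ∧ 0 ≤ deriv (w l) 1
      · exact Or.inl ⟨hpos l h.1 h.2, hne l hl h.1 h.2⟩
      · exact Or.inr h)
    ⟨0, ⟨le_rfl, by norm_num⟩, hzero⟩ ⟨1 / 2, ⟨by norm_num, le_rfl⟩, hhalf⟩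
  exact hlV ⟨fun t ht => (hlU.1 t ht).le, hlU.2.le⟩

end

end Pool.Agent.W60.ST
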